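import Pool.Agent.Work.MP_815b5d_co_all.Clique

set_option autoImplicit false

namespace Pool.Agent.Results.MP_815b5d_co.AllOrders

/-- Let `q = p ^ e` be an odd prime power and `L` the field with `q ^ 2` elements. Every maximal
clique of the Paley graph of `L` has exactly `q` elements or at most `(q + 1) / 2 + q / p`
elements. -/
theorem result :
    ∀ (p e : ℕ), p.Prime → Odd p → 1 ≤ e → ∀ (L : Type) [Field L] [Fintype L],
      Fintype.card L = (p ^ e) ^ 2 →
      ∀ s : Finset L,
        ((∀ x ∈ s, ∀ y ∈ s, x ≠ y → IsSquare (x - y)) ∧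
          (∀ v : L, v ∉ s → ∃ u ∈ s, ¬ IsSquare (v - u))) →
        s.card = p ^ e ∨ s.card ≤ (p ^ e + 1) / 2 + p ^ (e - 1) := by
  intro p e hp hodd he L _ _ hL s hs
  obtain ⟨n, rfl⟩ : ∃ n, e = n + 1 := ⟨e - 1, by omega⟩
  rw [Nat.add_sub_cancel]
  by_cases h : (p ^ (n + 1) + 1) / 2 + p ^ n + 1 ≤ s.card
  · left
    exact Pool.Agent.Work.MP_815b5d_co_all.card_eq_of_large p n hp
      (by rintro rfl; revert hodd; decide) hL s hs.1 hs.2 h
  · right
    omega

end Pool.Agent.Results.MP_815b5d_co.AllOrders
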